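import Pool.Agent.Q228.SAP.AreaR

/-!
Self-avoiding polygons on the square lattice: join inequalities for the law and the moments of the
area. With `p_{2n}` the number of polygons of perimeter `2n` and `A_n` the area of the uniform one,
the sum over `i ≤ j ≤ n - i` of `p_{2j} p_{2(n-j)} P(A_j + A'_{n-j} ≥ t)`, with independent areas,
is at most `K (log n)^2 i^(-1/2)` times the sum of `p_{2N} P(A_N ≥ t - 8)` over
`N = n + 4, n + 5, n + 6`, up to an error `p_{2n} / n^d`; and
`n p_{2n} p_{2m} E[(A_n + A'_m)^k] ≤ K (log m)^2 p_{2(n+m)} E[A_{n+m}^k]` for `n ≤ m`.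
-/

namespace Pool.Agent.Results.MP_f6626d_co.AreaLawJoin

/-- a closed nearest-neighbour loop on `ℤ²` with `m` steps, rooted at the origin and oriented,
that visits no vertex twice -/
def IsLoop (m : ℕ) (f : ZMod m → ℤ × ℤ) : Prop :=
  f 0 = 0 ∧ Function.Injective f ∧
    ∀ i : ZMod m, |(f (i + 1)).1 - (f i).1| + |(f (i + 1)).2 - (f i).2| = 1

/-- the edge from `f k` to `f (k+1)` is horizontal, joins the columns `x = a` and `x = a + 1`, and
has height larger than `b`: it lies above the unit cell `[a, a+1] × [b, b+1]` -/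
def Above (m : ℕ) (f : ZMod m → ℤ × ℤ) (a b : ℤ) (k : ZMod m) : Prop :=
  (((f k).1 = a ∧ (f (k + 1)).1 = a + 1) ∨ ((f k).1 = a + 1 ∧ (f (k + 1)).1 = a)) ∧ b < (f k).2

/-- the unit cell `[a, a+1] × [b, b+1]` is enclosed by the loop: the vertical ray from the cell
upwards crosses an odd number of edges -/
def Encl (m : ℕ) (f : ZMod m → ℤ × ℤ) (c : ℤ × ℤ) : Prop :=
  Odd (Nat.card {k : ZMod m // Above m f c.1 c.2 k})

/-- the area: the number of unit cells enclosed by the loop -/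
noncomputable def area (m : ℕ) (f : ZMod m → ℤ × ℤ) : ℕ := Nat.card {c : ℤ × ℤ // Encl m f c}

/-- the number of self-avoiding polygons of perimeter `2n` on `ℤ²` up to translation: the number
of rooted oriented loops with `2n` steps, divided by `4n` (the choices of the starting point and
of the orientation) -/
noncomputable def p (n : ℕ) : ℝ :=
  (Nat.card {f : ZMod (2 * n) → ℤ × ℤ // IsLoop (2 * n) f} : ℝ) / (4 * (n : ℝ))

/-- expectation under the uniform law on the (rooted, oriented) self-avoiding polygons of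
perimeter `2 n` -/
noncomputable def E (n : ℕ) (F : (ZMod (2 * n) → ℤ × ℤ) → ℝ) : ℝ :=
  (∑ᶠ f ∈ {f : ZMod (2 * n) → ℤ × ℤ | IsLoop (2 * n) f}, F f) /
    ({f : ZMod (2 * n) → ℤ × ℤ | IsLoop (2 * n) f}.ncard : ℝ)

/-- `E[w(A_n)]`, where `A_n` is the area of a uniform polygon of perimeter `2 n` -/
noncomputable def E1 (n : ℕ) (w : ℕ → ℝ) : ℝ := E n (fun f => w (area (2 * n) f))

/-- `E[w(A_j + A'_l)]`, where `A_j` and `A'_l` are the areas of two independent uniform polygons of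
perimeters `2 j` and `2 l` -/
noncomputable def E2 (j l : ℕ) (w : ℕ → ℝ) : ℝ :=
  E j (fun f => E l (fun g => w (area (2 * j) f + area (2 * l) g)))

lemma p_eq (n : ℕ) : p n = H981.PP n := rfl

lemma E1_eq {n : ℕ} (hn : 2 ≤ n) (w : ℕ → ℝ) :
    p n * E1 n w = (∑ f ∈ Pool.Agent.W870.Pg.LF (2 * n), w (area (2 * n) f)) / (4 * n) := by
  have h := Pool.Agent.Q228.SAP.me_mul_PP hn (fun f => w (area (2 * n) f))
  have h2 : E1 n w * p n =
      (∑ f ∈ Pool.Agent.W870.Pg.LF (2 * n), w (area (2 * n) f)) / (4 * n) := h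
  rw [mul_comm]
  exact h2

lemma E2_eq {j l : ℕ} (hj : 2 ≤ j) (hl : 2 ≤ l) (w : ℕ → ℝ) : p j * p l * E2 j l w =
    Pool.Agent.Q228.SAP.PW w j l / (4 * j) / (4 * (l : ℝ)) :=
  Pool.Agent.Q228.SAP.me2 hj hl (fun f g => w (area (2 * j) f + area (2 * l) g))

open Classical in
/-- **Theorem.** Let `p_{2n}` be the number of self-avoiding polygons of perimeter `2n` on `ℤ²`, up
to translation, and `A_n` the area of the uniform one; areas with different indices are
independent. For all natural `d`, `k` there is a constant `K` such that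
(1) for all `256 ≤ i ≤ n / 2` and all natural `t`,
`√i ∑_{i ≤ j ≤ n - i} p_{2j} p_{2(n-j)} P(A_j + A'_{n-j} ≥ t)` is at most
`K ((log n)^2 ∑_{N = n+4, n+5, n+6} p_{2N} P(A_N + 8 ≥ t) + p_{2n} / n^d)`;
(2) `√i ∑_{i ≤ j ≤ n - i} p_{2j} p_{2(n-j)} E[(A_j + A'_{n-j})^k] ≤ K (log n)^2 p_{2n} E[A_n^k]` for
all `2 ≤ i ≤ n / 2`;
(3) `n p_{2n} p_{2m} E[(A_n + A'_m)^k] ≤ K (log m)^2 p_{2(n+m)} E[A_{n+m}^k]` for all
`2 ≤ n ≤ m`. -/
theorem result : ∀ d k : ℕ, ∃ K : ℝ,
    (∀ i n t : ℕ, 256 ≤ i → 2 * i ≤ n →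
      Real.sqrt i * ∑ j ∈ Finset.Icc i (n - i),
          p j * p (n - j) * E2 j (n - j) (fun a => if t ≤ a then 1 else 0) ≤
        K * (Real.log n ^ 2 * ∑ c ∈ ({4, 5, 6} : Finset ℕ),
          p (n + c) * E1 (n + c) (fun a => if t ≤ a + 8 then 1 else 0) + p n / (n : ℝ) ^ d)) ∧
    (∀ i n : ℕ, 2 ≤ i → 2 * i ≤ n →
      Real.sqrt i * ∑ j ∈ Finset.Icc i (n - i),
          p j * p (n - j) * E2 j (n - j) (fun a => (a : ℝ) ^ k) ≤
        K * Real.log n ^ 2 * (p n * E1 n (fun a => (a : ℝ) ^ k))) ∧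
    ∀ n m : ℕ, 2 ≤ n → n ≤ m →
      n * (p n * p m * E2 n m (fun a => (a : ℝ) ^ k)) ≤
        K * Real.log m ^ 2 * (p (n + m) * E1 (n + m) (fun a => (a : ℝ) ^ k)) := by
  intro d k
  obtain ⟨K0, hK0, h0⟩ := Pool.Agent.Q228.SAP.join_law d
  obtain ⟨K1, hK1, h1⟩ := Pool.Agent.Q228.SAP.joinA_all k
  obtain ⟨K2, hK2, h2⟩ := Pool.Agent.Q228.SAP.superA k
  have hmu := H981.mu_pos
  have eG : ∀ n, Pool.Agent.Q228.SAP.aG k n * H981.mu ^ (2 * n) =
      p n * E1 n (fun a => (a : ℝ) ^ k) := fun n => Pool.Agent.Q228.SAP.aG_PP k n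
  have hpos : ∀ m, 2 ≤ m → 0 < p m * E1 m (fun a => (a : ℝ) ^ k) := fun m hm => by
    rw [← eG]
    exact mul_pos (Pool.Agent.Q228.SAP.aG_pos k hm) (by positivity)
  have ep : ∀ j l, 2 ≤ j → 2 ≤ l → p j * p l * E2 j l (fun a => (a : ℝ) ^ k) =
      Pool.Agent.Q228.SAP.pk k j l * H981.mu ^ (2 * (j + l)) := fun j l hj hl =>
    (Pool.Agent.Q228.SAP.pk_me k hj hl).symm
  refine ⟨K0 + K1 + K2, fun i n t hi hin => ?_, fun i n hi hin => ?_, fun n m hn hnm => ?_⟩
  · have hmono : Monotone (fun a : ℕ => if t ≤ a then (1 : ℝ) else 0) := by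
      intro a b hab
      show (if t ≤ a then (1 : ℝ) else 0) ≤ (if t ≤ b then (1 : ℝ) else 0)
      split_ifs with c1 c2
      · exact le_rfl
      · exact absurd (c1.trans hab) c2
      · norm_num
      · exact le_rfl
    have h := h0 i n hi hin (fun a => if t ≤ a then 1 else 0) hmono (fun x => by
      split_ifs <;> norm_num)
    have e : ∑ j ∈ Finset.Icc i (n - i),
        p j * p (n - j) * E2 j (n - j) (fun a => if t ≤ a then 1 else 0) =
        ∑ j ∈ Finset.Icc i (n - i), Pool.Agent.Q228.SAP.PW (fun a => if t ≤ a then 1 else 0) j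
          (n - j) / (4 * j) / (4 * ((n - j : ℕ) : ℝ)) := by
      refine Finset.sum_congr rfl fun j hj => ?_
      rw [Finset.mem_Icc] at hj
      exact E2_eq (by omega) (by omega) _
    have e1 : ∑ c ∈ ({4, 5, 6} : Finset ℕ),
        p (n + c) * E1 (n + c) (fun a => if t ≤ a + 8 then 1 else 0) =
        ∑ c ∈ ({4, 5, 6} : Finset ℕ), (∑ f ∈ Pool.Agent.W870.Pg.LF (2 * (n + c)),
          (if t ≤ Pool.Agent.H924P.area (2 * (n + c)) f + 8 then (1 : ℝ) else 0)) /
            (4 * ((n + c : ℕ) : ℝ)) := by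
      refine Finset.sum_congr rfl fun c _ => ?_
      exact E1_eq (by omega) _
    rw [e, e1]
    refine h.trans ?_
    have hP : 0 < H981.PP n := Pool.Agent.H739K.PP_pos (by omega)
    have hS : 0 ≤ ∑ c ∈ ({4, 5, 6} : Finset ℕ), (∑ f ∈ Pool.Agent.W870.Pg.LF (2 * (n + c)),
          (if t ≤ Pool.Agent.H924P.area (2 * (n + c)) f + 8 then (1 : ℝ) else 0)) /
            (4 * ((n + c : ℕ) : ℝ)) := by
      apply Finset.sum_nonneg
      intro c _
      apply div_nonneg _ (by positivity)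
      apply Finset.sum_nonneg
      intro f _
      split_ifs <;> norm_num
    rw [p_eq]
    apply mul_le_mul_of_nonneg_right (by linarith)
    positivity
  · have h := h1 i n hi hin
    have e : ∑ j ∈ Finset.Icc i (n - i), p j * p (n - j) * E2 j (n - j) (fun a => (a : ℝ) ^ k) =
        (∑ j ∈ Finset.Icc i (n - i), Pool.Agent.Q228.SAP.pk k j (n - j)) * H981.mu ^ (2 * n) := by
      rw [Finset.sum_mul]
      refine Finset.sum_congr rfl fun j hj => ?_
      rw [Finset.mem_Icc] at hj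
      rw [ep j (n - j) (by omega) (by omega), show 2 * (j + (n - j)) = 2 * n by omega]
    have hp := hpos n (by omega)
    rw [e, ← mul_assoc]
    calc _ ≤ K1 * Real.log n ^ 2 * Pool.Agent.Q228.SAP.aG k n * H981.mu ^ (2 * n) :=
          mul_le_mul_of_nonneg_right h (by positivity)
      _ = K1 * Real.log n ^ 2 * (p n * E1 n (fun a => (a : ℝ) ^ k)) := by rw [mul_assoc, eG]
      _ ≤ _ := by
          have : 0 ≤ (K0 + K2) * Real.log n ^ 2 * (p n * E1 n (fun a => (a : ℝ) ^ k)) := by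
            positivity
          linarith
  · have h := h2 n m hn hnm
    have hp := hpos (n + m) (by omega)
    rw [ep n m hn (by omega), ← mul_assoc]
    calc _ ≤ K2 * Real.log m ^ 2 * Pool.Agent.Q228.SAP.aG k (n + m) * H981.mu ^ (2 * (n + m)) :=
          mul_le_mul_of_nonneg_right h (by positivity)
      _ = K2 * Real.log m ^ 2 * (p (n + m) * E1 (n + m) (fun a => (a : ℝ) ^ k)) := by
          rw [mul_assoc, eG]
      _ ≤ _ := by
          have : 0 ≤ (K0 + K1) * Real.log m ^ 2 * (p (n + m) * E1 (n + m) (fun a => (a : ℝ) ^ k)) := by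
            positivity
          linarith

end Pool.Agent.Results.MP_f6626d_co.AreaLawJoin
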