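import Pool.Agent.Q228.SAP.Weak
import Pool.Agent.TH303.LTwo

/-!
Square-lattice self-avoiding polygons: the joint laws of the normalised area, width and height at
perimeters `2 n` and `2 n + 2` differ by at most `K (log n) / n^(1/2)` (in the bounded Lipschitz
metric), and convergence in distribution of the triple along sparse sequences implies convergence.
-/

open Filter Topology MeasureTheory

namespace Pool.Agent.Results.MP_f6626d_co.JointLawsMerge

/-- a closed nearest-neighbour loop on `ℤ²` with `m` steps, rooted at the origin and oriented,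
that visits no vertex twice -/
def IsLoop (m : ℕ) (f : ZMod m → ℤ × ℤ) : Prop :=
  f 0 = 0 ∧ Function.Injective f ∧
    ∀ i : ZMod m, |(f (i + 1)).1 - (f i).1| + |(f (i + 1)).2 - (f i).2| = 1

/-- the edge from `f k` to `f (k+1)` is horizontal, joins the columns `x = a` and `x = a + 1`, and
has height larger than `b`: it lies above the unit cell `[a, a+1] × [b, b+1]` -/
def Above (m : ℕ) (f : ZMod m → ℤ × ℤ) (a b : ℤ) (k : ZMod m) : Prop :=
  (((f k).1 = a ∧ (f (k + 1)).1 = a + 1) ∨ ((f k).1 = a + 1 ∧ (f (k + 1)).1 = a)) ∧ b < (f k).2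

/-- the unit cell `[a, a+1] × [b, b+1]` is enclosed by the loop: the vertical ray from the cell
upwards crosses an odd number of edges -/
def Encl (m : ℕ) (f : ZMod m → ℤ × ℤ) (c : ℤ × ℤ) : Prop :=
  Odd (Nat.card {k : ZMod m // Above m f c.1 c.2 k})

/-- the area: the number of unit cells enclosed by the loop -/
noncomputable def area (m : ℕ) (f : ZMod m → ℤ × ℤ) : ℕ := Nat.card {c : ℤ × ℤ // Encl m f c}

/-- the width (horizontal extent) of a loop -/
noncomputable def width (m : ℕ) (f : ZMod m → ℤ × ℤ) : ℕ :=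
  sSup {w : ℕ | ∃ i j, w = ((f i).1 - (f j).1).natAbs}

/-- the height (vertical extent) of a loop -/
noncomputable def height (m : ℕ) (f : ZMod m → ℤ × ℤ) : ℕ :=
  sSup {w : ℕ | ∃ i j, w = ((f i).2 - (f j).2).natAbs}

/-- expectation under the uniform law on the (rooted, oriented) self-avoiding polygons of
perimeter `2 n` -/
noncomputable def E (n : ℕ) (F : (ZMod (2 * n) → ℤ × ℤ) → ℝ) : ℝ :=
  (∑ᶠ f ∈ {f : ZMod (2 * n) → ℤ × ℤ | IsLoop (2 * n) f}, F f) /
    ({f : ZMod (2 * n) → ℤ × ℤ | IsLoop (2 * n) f}.ncard : ℝ)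

/-- the mean area `E[A_n]` -/
noncomputable def meanArea (n : ℕ) : ℝ := E n (fun f => (area (2 * n) f : ℝ))

/-- the mean width `E[W_n]` -/
noncomputable def meanWidth (n : ℕ) : ℝ := E n (fun f => (width (2 * n) f : ℝ))

/-- the mean height `E[H_n]` -/
noncomputable def meanHeight (n : ℕ) : ℝ := E n (fun f => (height (2 * n) f : ℝ))

/-- the normalised triple `(A_n / E[A_n], W_n / E[W_n], H_n / E[H_n])` -/
noncomputable def T (n : ℕ) (f : ZMod (2 * n) → ℤ × ℤ) : ℝ × ℝ × ℝ :=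
  ((area (2 * n) f : ℝ) / meanArea n, (width (2 * n) f : ℝ) / meanWidth n,
    (height (2 * n) f : ℝ) / meanHeight n)

/-- `E[g(A_n / E[A_n], W_n / E[W_n], H_n / E[H_n])]` -/
noncomputable def L (n : ℕ) (g : ℝ × ℝ × ℝ → ℝ) : ℝ := E n (fun f => g (T n f))

lemma L_eq {n : ℕ} (hn : 2 ≤ n) (g : ℝ × ℝ × ℝ → ℝ) : L n g =
    Pool.Agent.Q228.SAP.mG n (fun x y z => g (x, y, z)) (Pool.Agent.H739K.MA n)
      (Pool.Agent.H739K.MW n) := by
  have h : meanHeight n = Pool.Agent.H739K.MW n := Pool.Agent.Q228.SAP.height_mean hn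
  unfold L T
  rw [h]
  rfl

lemma dist_le (x y z x' y' z' : ℝ) :
    dist (x, y, z) (x', y', z') ≤ |x - x'| + |y - y'| + |z - z'| := by
  rw [Prod.dist_eq, Prod.dist_eq]
  simp only [Real.dist_eq]
  have h1 := abs_nonneg (x - x')
  have h2 := abs_nonneg (y - y')
  have h3 := abs_nonneg (z - z')
  refine max_le (by linarith) (max_le (by linarith) (by linarith))

lemma lip {g : ℝ × ℝ × ℝ → ℝ} (h1 : ∀ x y, |g x - g y| ≤ dist x y) (h2 : ∀ x, |g x| ≤ 1) :
    Pool.Agent.Q228.SAP.Lip (fun x y z => g (x, y, z)) where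
  lip := fun x y z x' y' z' => (h1 _ _).trans (dist_le x y z x' y' z')
  one := fun _ _ _ => h2 _

/-- **Theorem.** (1) There is `K` such that for all `n ≥ 2` and all `g : ℝ³ → [-1, 1]` with
Lipschitz constant `1` (maximum metric), the expectations of
`g(A_n / E[A_n], W_n / E[W_n], H_n / E[H_n])` at `n` and at `n + 1` differ by at most
`K (log n) / n^(1/2)`, where `A_n`, `W_n`, `H_n` are the area, the width and the height of the
uniform self-avoiding polygon of perimeter `2 n`.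
(2) Let `s_k → ∞` be a sequence of integers with `(s_{k+1} - s_k) (log s_k) / s_k^(1/2) → 0` and
`ν` a Borel probability measure on `ℝ³`.  If the normalised triples converge in distribution to `ν`
along `n = s_k`, then along all `n`. -/
theorem result : (∃ K : ℝ, ∀ n : ℕ, 2 ≤ n → ∀ g : ℝ × ℝ × ℝ → ℝ,
      (∀ x y, |g x - g y| ≤ dist x y) → (∀ x, |g x| ≤ 1) →
      |L (n + 1) g - L n g| ≤ K * (Real.log n / Real.sqrt n)) ∧
    ∀ s : ℕ → ℕ, Tendsto s atTop atTop →
      Tendsto (fun k => ((s (k + 1) : ℝ) - s k) * (Real.log (s k) / Real.sqrt (s k)))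
        atTop (𝓝 0) →
      ∀ ν : Measure (ℝ × ℝ × ℝ), IsProbabilityMeasure ν →
      (∀ g : ℝ × ℝ × ℝ → ℝ, Continuous g → (∃ C, ∀ x, |g x| ≤ C) →
        Tendsto (fun k => L (s k) g) atTop (𝓝 (∫ x, g x ∂ν))) →
      ∀ g : ℝ × ℝ × ℝ → ℝ, Continuous g → (∃ C, ∀ x, |g x| ≤ C) →
        Tendsto (fun n => L n g) atTop (𝓝 (∫ x, g x ∂ν)) := by
  obtain ⟨K, hK0, hK⟩ := Pool.Agent.Q228.SAP.joint
  refine ⟨⟨K, fun n hn g h1 h2 => ?_⟩, fun s hs hgap' ν hν h g hg hgb => ?_⟩
  · rw [← Pool.Agent.TH508.LT.rN_eq hn, L_eq hn, L_eq (show 2 ≤ n + 1 by omega)]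
    exact hK n hn _ (lip h1 h2)
  have hgap := Pool.Agent.TH303.LTwo.gap s hs hgap'
  exact Pool.Agent.Q228.SAP.weak_me T K hK0 (fun n hn g h1 h2 => by
    have h3 := hK n hn _ (lip h1 h2)
    rw [← L_eq hn, ← L_eq (show 2 ≤ n + 1 by omega)] at h3
    exact h3) s hs hgap ν h g hg hgb

end Pool.Agent.Results.MP_f6626d_co.JointLawsMerge
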