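import Pool.Agent.Q228.SAP.JMom
import Pool.Agent.TH303.LTwo

/-!
Square-lattice self-avoiding polygons: for all `i, j` the joint moments `E[A_n^i W_n^j]` of the area
and the width (plain and normalised by the means) at perimeters `2 n` and `2 n + 2` differ by a
factor `1 + O((log n) / n^(1/2))`; convergence of a normalised joint moment along sparse sequences
implies convergence.
-/

open Filter Topology

namespace Pool.Agent.Results.MP_f6626d_co.JointMoments

/-- a closed nearest-neighbour loop on `ℤ²` with `m` steps, rooted at the origin and oriented,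
that visits no vertex twice -/
def IsLoop (m : ℕ) (f : ZMod m → ℤ × ℤ) : Prop :=
  f 0 = 0 ∧ Function.Injective f ∧
    ∀ i : ZMod m, |(f (i + 1)).1 - (f i).1| + |(f (i + 1)).2 - (f i).2| = 1

/-- the edge from `f k` to `f (k+1)` is horizontal, joins the columns `x = a` and `x = a + 1`, and
has height larger than `b`: it lies above the unit cell `[a, a+1] × [b, b+1]` -/
def Above (m : ℕ) (f : ZMod m → ℤ × ℤ) (a b : ℤ) (k : ZMod m) : Prop :=
  (((f k).1 = a ∧ (f (k + 1)).1 = a + 1) ∨ ((f k).1 = a + 1 ∧ (f (k + 1)).1 = a)) ∧ b < (f k).2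

/-- the unit cell `[a, a+1] × [b, b+1]` is enclosed by the loop: the vertical ray from the cell
upwards crosses an odd number of edges -/
def Encl (m : ℕ) (f : ZMod m → ℤ × ℤ) (c : ℤ × ℤ) : Prop :=
  Odd (Nat.card {k : ZMod m // Above m f c.1 c.2 k})

/-- the area: the number of unit cells enclosed by the loop -/
noncomputable def area (m : ℕ) (f : ZMod m → ℤ × ℤ) : ℕ := Nat.card {c : ℤ × ℤ // Encl m f c}

/-- the width (horizontal extent) of a loop -/
noncomputable def width (m : ℕ) (f : ZMod m → ℤ × ℤ) : ℕ :=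
  sSup {w : ℕ | ∃ i j, w = ((f i).1 - (f j).1).natAbs}

/-- expectation under the uniform law on the (rooted, oriented) self-avoiding polygons of
perimeter `2 n` -/
noncomputable def E (n : ℕ) (F : (ZMod (2 * n) → ℤ × ℤ) → ℝ) : ℝ :=
  (∑ᶠ f ∈ {f : ZMod (2 * n) → ℤ × ℤ | IsLoop (2 * n) f}, F f) /
    ({f : ZMod (2 * n) → ℤ × ℤ | IsLoop (2 * n) f}.ncard : ℝ)

/-- the mean area `E[A_n]` -/
noncomputable def meanArea (n : ℕ) : ℝ := E n (fun f => (area (2 * n) f : ℝ))

/-- the mean width `E[W_n]` -/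
noncomputable def meanWidth (n : ℕ) : ℝ := E n (fun f => (width (2 * n) f : ℝ))

/-- the joint moment `E[A_n^i W_n^j]` of the area and the width -/
noncomputable def moment (i j n : ℕ) : ℝ :=
  E n (fun f => (area (2 * n) f : ℝ) ^ i * (width (2 * n) f : ℝ) ^ j)

/-- the normalised joint moment `E[(A_n / E[A_n])^i (W_n / E[W_n])^j]` -/
noncomputable def nmoment (i j n : ℕ) : ℝ :=
  E n (fun f => ((area (2 * n) f : ℝ) / meanArea n) ^ i * ((width (2 * n) f : ℝ) / meanWidth n) ^ j)

lemma nmoment_eq (i j : ℕ) {n : ℕ} (hn : 2 ≤ n) : nmoment i j n = Pool.Agent.Q228.SAP.NJ i j n := by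
  have h := Pool.Agent.H739K.F4x.me_mul Pool.Agent.H739K.CONV_proof hn
    (fun f => (area (2 * n) f : ℝ) ^ i * (width (2 * n) f : ℝ) ^ j)
    (1 / (meanArea n ^ i * meanWidth n ^ j))
  have e : nmoment i j n = Pool.Agent.H739K.me n (fun f =>
      (area (2 * n) f : ℝ) ^ i * (width (2 * n) f : ℝ) ^ j *
        (1 / (meanArea n ^ i * meanWidth n ^ j))) := by
    unfold nmoment
    have : (fun f => ((area (2 * n) f : ℝ) / meanArea n) ^ i *
        ((width (2 * n) f : ℝ) / meanWidth n) ^ j) = (fun f =>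
        (area (2 * n) f : ℝ) ^ i * (width (2 * n) f : ℝ) ^ j *
          (1 / (meanArea n ^ i * meanWidth n ^ j))) := by
      funext f
      rw [div_pow, div_pow, div_mul_div_comm, mul_one_div]
    rw [this]
    rfl
  rw [e, h, mul_one_div]
  rfl

/-- **Theorem.** (1) For all natural `i, j` there is `K` such that for all `n ≥ 2`
`|E[A_{n+1}^i W_{n+1}^j] / E[A_n^i W_n^j] - 1| ≤ K (log n) / n^(1/2)`, and the same holds for the
joint moments of `(A_n / E[A_n], W_n / E[W_n])`. (2) Let `s_k → ∞` be a sequence of integers with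
`(s_{k+1} - s_k) (log s_k) / s_k^(1/2) → 0` and `m > 0`. If
`E[(A_n/E[A_n])^i (W_n/E[W_n])^j] → m` along `n = s_k`, then along all `n`. -/
theorem result : (∀ i j : ℕ, ∃ K : ℝ, ∀ n : ℕ, 2 ≤ n →
      |moment i j (n + 1) / moment i j n - 1| ≤ K * (Real.log n / Real.sqrt n) ∧
      |nmoment i j (n + 1) / nmoment i j n - 1| ≤ K * (Real.log n / Real.sqrt n)) ∧
    ∀ (i j : ℕ) (s : ℕ → ℕ), Tendsto s atTop atTop →
      Tendsto (fun k => ((s (k + 1) : ℝ) - s k) * (Real.log (s k) / Real.sqrt (s k)))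
        atTop (𝓝 0) →
      ∀ m : ℝ, 0 < m → Tendsto (fun k => nmoment i j (s k)) atTop (𝓝 m) →
        Tendsto (fun n => nmoment i j n) atTop (𝓝 m) := by
  refine ⟨fun i j => ?_, fun i j s hs hgap' m hm h => ?_⟩
  · obtain ⟨K1, h1⟩ := Pool.Agent.Q228.SAP.JM_ratio i j
    obtain ⟨K2, h2⟩ := Pool.Agent.Q228.SAP.NJ_ratio i j
    refine ⟨max K1 K2, fun n hn => ?_⟩
    have hr : (0 : ℝ) ≤ Real.log n / Real.sqrt n :=
      div_nonneg (Real.log_natCast_nonneg n) (Real.sqrt_nonneg _)
    have g1 := h1 n hn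
    have g2 := h2 n hn
    rw [Pool.Agent.TH508.LT.rN_eq hn] at g1 g2
    rw [nmoment_eq i j hn, nmoment_eq i j (show 2 ≤ n + 1 by omega)]
    exact ⟨g1.trans (mul_le_mul_of_nonneg_right (le_max_left _ _) hr),
      g2.trans (mul_le_mul_of_nonneg_right (le_max_right _ _) hr)⟩
  have hgap := Pool.Agent.TH303.LTwo.gap s hs hgap'
  obtain ⟨K2, h2⟩ := Pool.Agent.Q228.SAP.NJ_ratio i j
  exact Pool.Agent.W387.Q.mul_gen (fun n => nmoment i j n) K2
    (fun n hn => by rw [nmoment_eq i j hn]; exact Pool.Agent.Q228.SAP.NJ_pos hn i j)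
    (fun n hn => by
      rw [nmoment_eq i j hn, nmoment_eq i j (show 2 ≤ n + 1 by omega)]
      exact h2 n hn) s hs hgap m hm h

end Pool.Agent.Results.MP_f6626d_co.JointMoments
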