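import Pool.Agent.Q228.SAP.BV2

/-!
Self-avoiding polygons on the square lattice: for every `k` the ratios of the consecutive `k`-th
moments of the area, and of the consecutive normalised moments `E[(A_n / E[A_n])^k]`, have bounded
variation on every block `n ≤ m ≤ 2 n`, with a bound which does not depend on `n`.
-/

namespace Pool.Agent.Results.MP_f6626d_co.MomentRatiosVariation

/-- a closed nearest-neighbour loop on `ℤ²` with `m` steps, rooted at the origin and oriented,
that visits no vertex twice -/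
def IsLoop (m : ℕ) (f : ZMod m → ℤ × ℤ) : Prop :=
  f 0 = 0 ∧ Function.Injective f ∧
    ∀ i : ZMod m, |(f (i + 1)).1 - (f i).1| + |(f (i + 1)).2 - (f i).2| = 1

/-- the edge from `f k` to `f (k+1)` is horizontal, joins the columns `x = a` and `x = a + 1`, and
has height larger than `b`: it lies above the unit cell `[a, a+1] × [b, b+1]` -/
def Above (m : ℕ) (f : ZMod m → ℤ × ℤ) (a b : ℤ) (k : ZMod m) : Prop :=
  (((f k).1 = a ∧ (f (k + 1)).1 = a + 1) ∨ ((f k).1 = a + 1 ∧ (f (k + 1)).1 = a)) ∧ b < (f k).2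

/-- the unit cell `[a, a+1] × [b, b+1]` is enclosed by the loop: the vertical ray from the cell
upwards crosses an odd number of edges -/
def Encl (m : ℕ) (f : ZMod m → ℤ × ℤ) (c : ℤ × ℤ) : Prop :=
  Odd (Nat.card {k : ZMod m // Above m f c.1 c.2 k})

/-- the area: the number of unit cells enclosed by the loop -/
noncomputable def area (m : ℕ) (f : ZMod m → ℤ × ℤ) : ℕ := Nat.card {c : ℤ × ℤ // Encl m f c}

/-- expectation under the uniform law on the (rooted, oriented) self-avoiding polygons of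
perimeter `2 n` -/
noncomputable def E (n : ℕ) (F : (ZMod (2 * n) → ℤ × ℤ) → ℝ) : ℝ :=
  (∑ᶠ f ∈ {f : ZMod (2 * n) → ℤ × ℤ | IsLoop (2 * n) f}, F f) /
    ({f : ZMod (2 * n) → ℤ × ℤ | IsLoop (2 * n) f}.ncard : ℝ)

/-- the mean area `E[A_n]` -/
noncomputable def meanArea (n : ℕ) : ℝ := E n (fun f => (area (2 * n) f : ℝ))

/-- the `k`-th moment `E[A_n^k]` of the area -/
noncomputable def moment (k n : ℕ) : ℝ := E n (fun f => (area (2 * n) f : ℝ) ^ k)

/-- the normalised moment `E[(A_n / E[A_n])^k]` -/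
noncomputable def nmoment (k n : ℕ) : ℝ := E n (fun f => ((area (2 * n) f : ℝ) / meanArea n) ^ k)

/-- **Theorem.** For every `k` there is `K` such that for all `n ≥ 2`, with `M_m = E[A_m^k]` and
`N_m = E[(A_m / E[A_m])^k]`, the sums over `n ≤ m ≤ 2n` of `|M_{m+2} / M_{m+1} - M_{m+1} / M_m|` and
of `|N_{m+2} / N_{m+1} - N_{m+1} / N_m|` are at most `K`. -/
theorem result : ∀ k : ℕ, ∃ K : ℝ, ∀ n : ℕ, 2 ≤ n →
    ∑ m ∈ Finset.Icc n (2 * n),
      |moment k (m + 2) / moment k (m + 1) - moment k (m + 1) / moment k m| ≤ K ∧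
    ∑ m ∈ Finset.Icc n (2 * n),
      |nmoment k (m + 2) / nmoment k (m + 1) - nmoment k (m + 1) / nmoment k m| ≤ K := by
  intro k
  obtain ⟨K1, h1⟩ := (Pool.Agent.Q228.SAP.bvar_area k).var
  obtain ⟨K2, h2⟩ := (Pool.Agent.Q228.SAP.bvar_narea k).var
  exact ⟨max K1 K2, fun n hn => ⟨(h1 n hn).trans (le_max_left _ _),
    (h2 n hn).trans (le_max_right _ _)⟩⟩

end Pool.Agent.Results.MP_f6626d_co.MomentRatiosVariation
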